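import Mathlib
import Pool.Agent.Helper71.DKDefs
import Pool.Agent.Helper71.DKWin

/-!
The misere quotient of the set of all positions of Dawson's Kayles is infinite.
-/

set_option autoImplicit false

namespace Pool.Agent.Results.MP_8bce70_co.InfiniteQuotient

open Pool.Agent.Helper71.DKDefs Pool.Agent.Helper71.DKWin

/-- All positions of Dawson's Kayles: finite multisets of positive heap sizes. -/
def AllPos : AddSubmonoid (Multiset ℕ) where
  carrier := {G | ∀ m ∈ G, 1 ≤ m}
  zero_mem' := by intro m hm; simp at hm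
  add_mem' := by
    intro G H hG hH m hm
    rw [Multiset.mem_add] at hm
    rcases hm with hm | hm
    · exact hG m hm
    · exact hH m hm

/-- Indistinguishability of `H` and `K`: `H + X` and `K + X` have the same misere outcome for every
position `X`. -/
def allCon : AddCon AllPos where
  r H K := ∀ X : AllPos, MisereP ((H : Multiset ℕ) + X) ↔ MisereP ((K : Multiset ℕ) + X)
  iseqv := ⟨fun _ _ => Iff.rfl, fun h X => (h X).symm, fun h h' X => (h X).trans (h' X)⟩
  add' := by
    intro H K H' K' h h' X
    have e1 := h (H' + X)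
    have e2 := h' (K + X)
    rw [AddSubmonoid.coe_add] at e1 e2
    rw [AddSubmonoid.coe_add, AddSubmonoid.coe_add]
    have a1 : (H : Multiset ℕ) + H' + X = (H : Multiset ℕ) + (H' + X) := add_assoc _ _ _
    have a2 : (K : Multiset ℕ) + (H' + X) = (H' : Multiset ℕ) + (K + X) := by
      rw [← add_assoc, ← add_assoc, add_comm (K : Multiset ℕ) H']
    have a3 : (K' : Multiset ℕ) + (K + X) = (K : Multiset ℕ) + K' + X := by
      rw [← add_assoc, add_comm (K' : Multiset ℕ) K]
    rw [a1, e1, a2, e2, a3]

/-- The single heap of size `h ≥ 1`, as a position. -/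
def heap (h : ℕ) (hh : 1 ≤ h) : AllPos := ⟨{h}, by
  intro m hm
  rw [Multiset.mem_singleton] at hm
  omega⟩

/-- The single heap of size `h`, `1 ≤ h ≤ n`, as a position of `Pos n`. -/
def heapIn (n h : ℕ) (hh : 1 ≤ h ∧ h ≤ n) : Pos n := ⟨{h}, by
  intro m hm
  rw [Multiset.mem_singleton] at hm
  omega⟩

theorem test_eq (k j : ℕ) :
    test k j = k • ({34} : Multiset ℕ) + (j • ({30} : Multiset ℕ) + (2 ::ₘ 4 ::ₘ {25})) := by
  rw [Multiset.nsmul_singleton, Multiset.nsmul_singleton]
  rfl

/-- the class of `a` heaps `34` (`30`) differs from that of `b` such heaps, in any set of positions containing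
the heaps `2, 4, 25, 30, 34`; written for an abstract submonoid. -/
theorem key34 {a b : ℕ} (ha : 3 ≤ a) (hab : a < b) :
    ¬ (MisereP (a • ({34} : Multiset ℕ) + ((a - 1) • ({30} : Multiset ℕ) + (2 ::ₘ 4 ::ₘ {25}))) ↔
      MisereP (b • ({34} : Multiset ℕ) + ((a - 1) • ({30} : Multiset ℕ) + (2 ::ₘ 4 ::ₘ {25})))) := by
  rw [← test_eq, ← test_eq, test_P ha, test_P (by omega)]
  omega

theorem key30 {a b : ℕ} (ha : 1 ≤ a) (hab : a < b) :
    ¬ (MisereP (a • ({30} : Multiset ℕ) + ((a + 2) • ({34} : Multiset ℕ) + (2 ::ₘ 4 ::ₘ {25}))) ↔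
      MisereP (b • ({30} : Multiset ℕ) + ((a + 2) • ({34} : Multiset ℕ) + (2 ::ₘ 4 ::ₘ {25})))) := by
  have h : ∀ c : ℕ, c • ({30} : Multiset ℕ) + ((a + 2) • ({34} : Multiset ℕ) + (2 ::ₘ 4 ::ₘ {25})) =
      test (a + 2) c := by
    intro c
    rw [test_eq, ← add_assoc, ← add_assoc, add_comm (c • ({30} : Multiset ℕ))]
  rw [h, h, test_P (by omega), test_P (by omega)]
  omega

/-- **Result.** Misere play of Dawson's Kayles.
(1) The misere quotient of the set of all positions is infinite; in it the multiples `k·[34]`, `k ≥ 3`, of the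
class of the heap 34 are pairwise different, and so are the multiples `j·[30]`, `j ≥ 1`, of the class of the
heap 30.
(2) The same holds in the misere quotient of `A_n` for every `n ≥ 34`.
(3) For `k ≥ 3` and every `j`, the position with `k` heaps 34, `j` heaps 30 and heaps 2, 4, 25 is a misere
P-position if and only if `j + 2 ≤ k`. -/
theorem result :
    (Infinite allCon.Quotient ∧
      (∀ a b : ℕ, 3 ≤ a → a < b →
        ((a • heap 34 (by norm_num) : AllPos) : allCon.Quotient) ≠
          ((b • heap 34 (by norm_num) : AllPos) : allCon.Quotient)) ∧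
      (∀ a b : ℕ, 1 ≤ a → a < b →
        ((a • heap 30 (by norm_num) : AllPos) : allCon.Quotient) ≠
          ((b • heap 30 (by norm_num) : AllPos) : allCon.Quotient))) ∧
    (∀ (n : ℕ) (hn : 34 ≤ n), Infinite (MisereQuotient n) ∧
      (∀ a b : ℕ, 3 ≤ a → a < b →
        ((a • heapIn n 34 (by omega) : Pos n) : MisereQuotient n) ≠
          ((b • heapIn n 34 (by omega) : Pos n) : MisereQuotient n)) ∧
      (∀ a b : ℕ, 1 ≤ a → a < b →
        ((a • heapIn n 30 (by omega) : Pos n) : MisereQuotient n) ≠
          ((b • heapIn n 30 (by omega) : Pos n) : MisereQuotient n))) ∧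
    (∀ k j : ℕ, 3 ≤ k →
      (MisereP (k • ({34} : Multiset ℕ) + (j • ({30} : Multiset ℕ) + (2 ::ₘ 4 ::ₘ {25}))) ↔
        j + 2 ≤ k)) := by
  have h34 : ∀ a b : ℕ, 3 ≤ a → a < b →
        ((a • heap 34 (by norm_num) : AllPos) : allCon.Quotient) ≠
          ((b • heap 34 (by norm_num) : AllPos) : allCon.Quotient) := by
    intro a b ha hab h
    have h1 := (allCon.eq.mp h) ((a - 1) • heap 30 (by norm_num) +
      (heap 2 (by norm_num) + (heap 4 (by norm_num) + heap 25 (by norm_num))))
    exact key34 ha hab h1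
  have h30 : ∀ a b : ℕ, 1 ≤ a → a < b →
        ((a • heap 30 (by norm_num) : AllPos) : allCon.Quotient) ≠
          ((b • heap 30 (by norm_num) : AllPos) : allCon.Quotient) := by
    intro a b ha hab h
    have h1 := (allCon.eq.mp h) ((a + 2) • heap 34 (by norm_num) +
      (heap 2 (by norm_num) + (heap 4 (by norm_num) + heap 25 (by norm_num))))
    exact key30 ha hab h1
  refine ⟨⟨?_, h34, h30⟩, ?_, ?_⟩
  · refine Infinite.of_injective
      (fun n : ℕ => (((n + 3) • heap 34 (by norm_num) : AllPos) : allCon.Quotient)) ?_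
    intro a b hab
    by_contra hne
    rcases Nat.lt_or_gt_of_ne hne with h | h
    · exact h34 _ _ (by omega) (by omega) hab
    · exact h34 _ _ (by omega) (by omega) hab.symm
  · intro n hn
    have g34 : ∀ a b : ℕ, 3 ≤ a → a < b →
        ((a • heapIn n 34 (by omega) : Pos n) : MisereQuotient n) ≠
          ((b • heapIn n 34 (by omega) : Pos n) : MisereQuotient n) := by
      intro a b ha hab h
      have h1 := ((misereCon n).eq.mp h) ((a - 1) • heapIn n 30 (by omega) +
        (heapIn n 2 (by omega) + (heapIn n 4 (by omega) + heapIn n 25 (by omega))))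
      exact key34 ha hab h1
    have g30 : ∀ a b : ℕ, 1 ≤ a → a < b →
        ((a • heapIn n 30 (by omega) : Pos n) : MisereQuotient n) ≠
          ((b • heapIn n 30 (by omega) : Pos n) : MisereQuotient n) := by
      intro a b ha hab h
      have h1 := ((misereCon n).eq.mp h) ((a + 2) • heapIn n 34 (by omega) +
        (heapIn n 2 (by omega) + (heapIn n 4 (by omega) + heapIn n 25 (by omega))))
      exact key30 ha hab h1
    refine ⟨?_, g34, g30⟩
    refine Infinite.of_injective
      (fun m : ℕ => (((m + 3) • heapIn n 34 (by omega) : Pos n) : MisereQuotient n)) ?_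
    intro a b hab
    by_contra hne
    rcases Nat.lt_or_gt_of_ne hne with h | h
    · exact g34 _ _ (by omega) (by omega) hab
    · exact g34 _ _ (by omega) (by omega) hab.symm
  · intro k j hk
    rw [← test_eq, test_P hk]

end Pool.Agent.Results.MP_8bce70_co.InfiniteQuotient
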